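import Pool.Agent.Run7.h985.TC.Stm

/-!
# Piece T2 of project TC (helper985, page MP_6d0ce9_ag)

Every object is a retract of a filtered object: the retracts of the filtered objects form a thick
subcategory.
-/

set_option autoImplicit false

open CategoryTheory Limits MonoidalCategory Pretriangulated Triangulated ZeroObject

namespace Run7.h650.TC

open Pool.Agent.Y116.MT Pool.Agent.V1178.MT Run7.h822.MT Run7.h985.TC

universe v u w

section

variable {C : Type u} [Category.{v} C] [Preadditive C] [HasZeroObject C] [HasShift C ℤ]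
  [∀ n : ℤ, (shiftFunctor C n).Additive] [Pretriangulated C] [MonoidalCategory C]
  [SymmetricCategory C] [TensorTriangulated C] {E : Type w} [Field E] {R : Realisation C E}

lemma deg_of_isZero {X : C} (hX : IsZero X) (a : ℤ) : R.Deg X a := fun i _ =>
  R.H.map_isZero ((shiftFunctor C i).map_isZero hX)

lemma fil_le {a b : ℤ} {X : C} (h : Fil R a b X) : a ≤ b := by
  induction h with
  | zero _ => exact le_refl _
  | step _ _ _ _ _ _ ih => omega

set_option backward.defeqAttrib.useBackward true in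
lemma fil_iso {a b : ℤ} {X Y : C} (h : Fil R a b X) (e : X ≅ Y) : Fil R a b Y := by
  cases h with
  | zero hX => exact .zero (hX.of_iso e.symm)
  | step f g h hT hX' hH =>
    refine .step (f ≫ e.hom) (e.inv ≫ g) h ?_ hX' hH
    refine isomorphic_distinguished _ hT _ ?_
    exact Triangle.isoMk _ _ (Iso.refl _) e.symm (Iso.refl _) (by simp) (by simp) (by simp)

lemma fil_succ {a b : ℤ} {X : C} (h : Fil R a b X) : Fil R a (b + 1) X :=
  .step (𝟙 X) 0 0 (contractible_distinguished X) h (deg_of_isZero (isZero_zero C) _)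

lemma fil_mono_right {a b b' : ℤ} {X : C} (h : Fil R a b X) (hb : b ≤ b') : Fil R a b' X := by
  induction b', hb using Int.leInduction with
  | base => exact h
  | succ n _ ih => exact fil_succ ih

lemma fil_pred {a b : ℤ} {X : C} (h : Fil R a b X) : Fil R (a - 1) b X := by
  induction h with
  | zero hX =>
    have h1 : Fil R (a - 1) (a - 1 + 1) _ := fil_succ (Fil.zero (R := R) (a := a - 1) hX)
    rwa [sub_add_cancel] at h1
  | step f g h hT _ hH ih => exact .step f g h hT ih hH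

lemma fil_mono_left {a a' b : ℤ} {X : C} (h : Fil R a b X) (ha : a' ≤ a) : Fil R a' b X := by
  obtain ⟨n, rfl⟩ : ∃ n : ℕ, a' = a - n := ⟨(a - a').toNat, by omega⟩
  clear ha
  induction n with
  | zero => simpa using h
  | succ n ih =>
    have h1 := fil_pred ih
    have h2 : a - ((n + 1 : ℕ) : ℤ) = a - n - 1 := by push_cast; ring
    rw [h2]
    exact h1

lemma fil_mono {a a' b b' : ℤ} {X : C} (h : Fil R a b X) (ha : a' ≤ a) (hb : b ≤ b') :
    Fil R a' b' X := fil_mono_right (fil_mono_left h ha) hb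

lemma fil_shift {a b : ℤ} {X : C} (h : Fil R a b X) (n : ℤ) :
    Fil R (a - n) (b - n) (X⟦n⟧) := by
  induction h with
  | zero hX => exact .zero ((shiftFunctor C n).map_isZero hX)
  | @step b X' X H f g h hT _ hH ih =>
    have h1 : Fil R (a - n) (b - n + 1) (X⟦n⟧) :=
      .step _ _ _ (Triangle.shift_distinguished _ hT n) ih (hH.shift n _ (by ring))
    have h2 : b - n + 1 = b + 1 - n := by ring
    rwa [h2] at h1

lemma fil_single {X : C} {a : ℤ} (hX : R.Deg X (a + 1)) : Fil R a (a + 1) X :=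
  .step (0 : (0 : C) ⟶ X) (𝟙 X) 0 (contractible_distinguished₁ X) (.zero (isZero_zero C)) hX

/-- Extensions of filtered objects are filtered. -/
lemma fil_ext [IsTriangulated C] {a b : ℤ}
    (hT1 : ∀ (c : ℤ) (X Y H : C) (f : X ⟶ Y) (g : Y ⟶ H) (h : H ⟶ X⟦(1 : ℤ)⟧),
      Triangle.mk f g h ∈ distTriang C → Fil R a b X → a < c → c ≤ b → R.Deg H c → Fil R a b Y)
    {b' : ℤ} {Z : C} (hZ : Fil R a b' Z) (hb : b' ≤ b) :
    ∀ (X Y : C) (f : X ⟶ Y) (g : Y ⟶ Z) (h : Z ⟶ X⟦(1 : ℤ)⟧), Triangle.mk f g h ∈ distTriang C →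
      Fil R a b X → Fil R a b Y := by
  induction hZ with
  | zero hZ =>
    intro X Y f g h hT hX
    have h1 : IsIso f := (Triangle.isZero₃_iff_isIso₁ _ hT).1 hZ
    exact fil_iso hX (asIso f)
  | @step b' Z' Z H f' g' h' hT' hZ' hH ih =>
    intro X Y f g h hT hX
    have h1 : ObjectProperty.extensionProduct (fun W => W = X)
        (ObjectProperty.extensionProduct (fun W => W = Z') (fun W => W = H)) Y :=
      ⟨X, Z, f, g, h, hT, rfl, ⟨Z', H, f', g', h', hT', rfl, rfl⟩⟩
    rw [← ObjectProperty.extensionProduct_assoc] at h1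
    obtain ⟨W, H', f1, g1, h1, hT1', ⟨X1, Z1, f2, g2, h2, hT2, hX1, hZ1⟩, hH1⟩ := h1
    subst hX1
    subst hZ1
    subst hH1
    have hW := ih (by omega) _ _ f2 g2 h2 hT2 hX
    exact hT1 (b' + 1) W Y _ f1 g1 h1 hT1' hW (by have := fil_le hZ'; omega) hb hH

end

theorem t_T2 : S_T1.{v, u, w} → S_T2.{v, u, w} := by
  intro hT1 C _ _ _ _ _ _ _ _ _ _ _ E _ R hF hI hG
  let Q : ObjectProperty C := fun X => ∃ a b : ℤ, Fil R a b X
  have key : ∀ X, Q.retractClosure X := by
    apply hG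
    · refine ⟨?_, ?_, ?_, ?_⟩
      · intro X hX
        exact ObjectProperty.le_retractClosure Q _ ⟨0, 0, .zero hX⟩
      · rintro X n ⟨X', ⟨a, b, hX'⟩, ⟨⟨i, r, h⟩⟩⟩
        refine ⟨X'⟦n⟧, ⟨_, _, fil_shift hX' n⟩, ⟨⟨i⟦n⟧', r⟦n⟧', ?_⟩⟩⟩
        rw [← Functor.map_comp, h, CategoryTheory.Functor.map_id]
      · intro X Y Z f g h hT hX hZ
        obtain ⟨Y', hY', hr⟩ := ObjectProperty.extensionProduct_retractClosure_retractClosure_le
          Q Q Y ⟨X, Z, f, g, h, hT, hX, hZ⟩
        obtain ⟨X1, Z1, f1, g1, h1, hT1', ⟨a1, b1, hX1⟩, ⟨a2, b2, hZ1⟩⟩ := hY'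
        refine ⟨Y', ⟨min a1 a2, max b1 b2, ?_⟩, hr⟩
        exact fil_ext (fun c X Y H f g h hT hX hc1 hc2 hH =>
          hT1 C E R hF hI _ _ c X Y H f g h hT hX hc1 hc2 hH)
          (fil_mono hZ1 (min_le_right _ _) (le_max_right _ _)) (le_refl _) _ _ f1 g1 h1 hT1'
          (fil_mono hX1 (min_le_left _ _) (le_max_left _ _))
      · rintro X Y i r h ⟨X', hX', ⟨⟨i', r', h'⟩⟩⟩
        refine ⟨X', hX', ⟨⟨i ≫ i', r' ≫ r, ?_⟩⟩⟩
        rw [Category.assoc, reassoc_of% h', h]
    · intro X hX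
      refine ObjectProperty.le_retractClosure Q _ ⟨-1, 0, ?_⟩
      have h1 : Fil R (-1) (-1 + 1) X := fil_single (by simpa using hX)
      simpa using h1
  intro X
  obtain ⟨X', ⟨a, b, hX'⟩, ⟨⟨i, r, h⟩⟩⟩ := key X
  exact ⟨a, b, X', i, r, h, hX'⟩

end Run7.h650.TC
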